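import Mathlib
import Pool.Agent.J4H26.KT.H

/-!
# Collatz trajectories of related integers are coalescing random walks, up to the full lifetime

`T` is the shortcut Collatz map on the integers.  We consider `k` linear forms `3 ^ a i * m + r i` and follow their
trajectories for `t = ⌊τ log₂ N⌋` steps, for a random `m` in an interval of `N` integers, in any position.  Here
`0 < τ < 1/θ₀ = 4.81…` is arbitrary; `log₂ N / θ₀` is the typical lifetime of a trajectory which starts at a number of size
`N`.  (For `τ > 1` the binary digits of `m` are used up long before the time `t`.)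

As long as the binary digits of `m` control the trajectory, `T^t (3 ^ a * m + r)` is a linear function of `m` with slope
`3 ^ A / 2 ^ t`, where the exponent `A` is `a` plus the number of odd terms among the first `t` terms of the trajectory.
The theorem says that in the limit the exponents and the mergings of the `k` trajectories are, jointly, those of `k`
coalescing random walks: they are independent until they meet and move together afterwards.  The distance used is the
bounded Lipschitz distance for the rescaled exponents, jointly with the pattern of the mergings.  The distribution function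
of the exponents is moreover an explicit determinant, uniformly, and the probability of merging of two trajectories is
`1 - erf (|a i - a j| / √t)` up to `o(1)`.

The transfer beyond `log₂ N` steps (files `J4H39`, `J4H67`) is by helper39 and helper67; the law of the exponents for random
binary digits (files `J4H26/AF`, `J4H26/KT`) is by helper26.
-/

set_option autoImplicit false

open Filter Topology

namespace Pool.Agent.Results.MP_d02c56_nt.CoalescingForms

/-- The shortcut Collatz map on the integers. -/
def T (x : ℤ) : ℤ := if x % 2 = 0 then x / 2 else (3 * x + 1) / 2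

/-- The constant `log (4/3) / (2 log 2) = 0.2075…`. -/
noncomputable def θ₀ : ℝ := Real.log (4 / 3) / (2 * Real.log 2)

/-- The number of steps `⌊τ log₂ N⌋`. -/
noncomputable def time (τ : ℝ) (N : ℕ) : ℕ := ⌊τ * Real.logb 2 N⌋₊

/-- The exponent of the form `3 ^ a * m + r` at time `t`: the number `a` plus the number of odd integers among the first
`t` terms of the trajectory of `3 ^ a * m + r`. -/
def A (t a : ℕ) (r m : ℤ) : ℤ := a + ((Finset.range t).filter fun j => T^[j] (3 ^ a * m + r) % 2 = 1).card

/-- The mean of `F` over the integers `m`, `x < m ≤ x + N`. -/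
noncomputable def mean (x : ℤ) (N : ℕ) (F : ℤ → ℝ) : ℝ := (∑ m ∈ Finset.Ioc x (x + N), F m) / N

open Classical in
/-- The indicator of a proposition. -/
noncomputable def ind (P : Prop) : ℝ := if P then 1 else 0

/-- The possible moves of `k` coalescing walks at the positions `z`: all vectors `p` of zeros and ones such that walks at
the same position move together. -/
def moves {k : ℕ} (z : Fin k → ℤ) : Finset (Fin k → Fin 2) := Finset.univ.filter fun p => ∀ i j, z i = z j → p i = p j

/-- The expected value of `F` at the positions after `s` steps of `k` coalescing random walks started at the positions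
`z`.  In a step all the possible moves have the same probability. -/
noncomputable def walks {k : ℕ} (F : (Fin k → ℤ) → ℝ) : ℕ → (Fin k → ℤ) → ℝ
  | 0, z => F z
  | s + 1, z => (∑ p ∈ moves z, walks F s (fun i => z i + (p i : ℕ))) / (moves z).card

/-- The test functions: functions of `k` real numbers `u` and of a relation `p` between the `k` indices, bounded by `1` and,
for every `p`, Lipschitz in `u` with constant `1` for the maximum norm. -/
def Test {k : ℕ} (f : (Fin k → ℝ) → (Fin k → Fin k → Prop) → ℝ) : Prop :=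
  (∀ u p, |f u p| ≤ 1) ∧ ∀ u v p, |f u p - f v p| ≤ ‖u - v‖

/-- The distribution function of the number of successes in `s` fair trials. -/
noncomputable def bin (s : ℕ) (d : ℤ) : ℝ := (∑ l ∈ Finset.range (s + 1), if (l : ℤ) ≤ d then (s.choose l : ℝ) else 0) / 2 ^ s

open Pool.Agent.J4H26.AF Pool.Agent.J4H26.KT

theorem T_eq : T = Pool.Agent.J4H39.T := rfl

theorem th0_eq : θ₀ = Pool.Agent.J4H39.th0 := by
  unfold θ₀ Pool.Agent.J4H39.th0 Pool.Agent.J4H39.mu2
  rw [Real.log_div (by norm_num) (by norm_num)]

theorem card_od (t : ℕ) (n : ℤ) : ((Finset.range t).filter fun j => T^[j] n % 2 = 1).card = Pool.Agent.J4H39.od t n := by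
  induction t with
  | zero => simp [Pool.Agent.J4H39.od]
  | succ t ih =>
    rw [Finset.range_add_one, Finset.filter_insert, Pool.Agent.J4H39.od_succ, ← ih, T_eq]
    rcases Pool.Agent.J4H39.pr_cases t n with ⟨h1, h2⟩ | ⟨h1, h2⟩
    · rw [h1, if_neg (by omega), add_zero]
    · rw [h1, if_pos h2, Finset.card_insert_of_notMem (by simp)]

theorem A_eq {k : ℕ} (a : Fin k → ℕ) (r : Fin k → ℤ) (t : ℕ) (m : ℤ) (i : Fin k) : A t (a i) (r i) m = AA a r t m i := by
  unfold A AA Lf
  rw [card_od]

theorem walks_eq {k : ℕ} (F : (Fin k → ℤ) → ℝ) (s : ℕ) : ∀ z, walks F s z = cw F s z := by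
  induction s with
  | zero => intro z; rfl
  | succ s ih =>
    intro z
    show (∑ p ∈ moves z, walks F s (fun i => z i + (p i : ℕ))) / (moves z).card =
      (∑ p ∈ Pool.Agent.J4H26.AF.moves z, cw F s (fun i => z i + (p i : ℕ))) / (Pool.Agent.J4H26.AF.moves z).card
    have e : moves z = Pool.Agent.J4H26.AF.moves z := rfl
    rw [e, Finset.sum_congr rfl (fun p _ => ih _)]

theorem bin_eq (s : ℕ) (d : ℤ) : bin s d = Fb s d := by
  unfold bin
  rw [Fb_rep, Finset.sum_div]
  apply Finset.sum_congr rfl
  intro l _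
  rw [pm_eq]
  split_ifs
  · ring
  · ring

theorem ind_eq {k : ℕ} (y u : Fin k → ℤ) : ind (∀ i, u i ≤ y i) = Pool.Agent.J4H26.KT.ind y u := by
  unfold ind Pool.Agent.J4H26.KT.ind
  split_ifs <;> rfl

theorem sum_eq (x : ℤ) (N : ℕ) (F : ℤ → ℝ) : ∑ m ∈ Finset.Ioc x (x + N), F m = ∑ v ∈ Finset.range N, F (x + 1 + (v : ℕ)) := by
  symm
  apply Finset.sum_bij (fun (v : ℕ) _ => x + 1 + (v : ℤ))
  · intro v hv
    rw [Finset.mem_range] at hv
    rw [Finset.mem_Ioc]
    constructor <;> omega
  · intro v _ v' _ h
    omega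
  · intro m hm
    rw [Finset.mem_Ioc] at hm
    exact ⟨(m - x - 1).toNat, by rw [Finset.mem_range]; omega, by omega⟩
  · intro v _
    rfl

theorem mean_le {x : ℤ} {N : ℕ} (hN : 1 ≤ N) {F : ℤ → ℝ} {W ε : ℝ}
    (h : |∑ v ∈ Finset.range N, F (x + 1 + (v : ℕ)) - N * W| ≤ ε * N) : |mean x N F - W| ≤ ε := by
  have hN0 : (0 : ℝ) < N := by exact_mod_cast hN
  unfold mean
  rw [sum_eq]
  have e : (∑ v ∈ Finset.range N, F (x + 1 + (v : ℕ))) / N - W = (∑ v ∈ Finset.range N, F (x + 1 + (v : ℕ)) - N * W) / N := by
    field_simp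
  rw [e, abs_div, abs_of_pos hN0, div_le_iff₀ hN0]
  exact h

/-- **Collatz trajectories of related integers are coalescing random walks, up to the full lifetime.**

For all `k`, `0 < τ < 1/θ₀` and `ε > 0`, for all large `N`, with `t = ⌊τ log₂ N⌋`, for all integers `x` and all forms
`3 ^ a i * m + r i` with `a i ≤ t ^ (3/5)` and `|r i| ≤ exp (t ^ (7/10))`, for a random `m`, `x < m ≤ x + N`:

* for every test function `f` the mean of `f` at the rescaled exponents `A t (a i) (r i) m / √t` and the relation (the
  trajectories of the forms `i` and `j` are at the same point at time `t`) differs by at most `ε` from the expected value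
  of `f` at the rescaled positions and the relation (the walks `i` and `j` are at the same position) after `t` steps of
  `k` coalescing random walks started at the `a i`;
* if `a 0 ≤ a 1 ≤ …`, then for all integers `y 0 ≤ y 1 ≤ …` the probability that all exponents `A t (a i) (r i) m` are at
  most `y i` differs by at most `ε` from `det (bin t (y j - a i) - [i < j])`, which is the probability of the same event
  for the walks;
* for all `i`, `j` the probability that the trajectories `i` and `j` are at the same point at time `t` differs by at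
  most `ε` from `1 - erf (|a i - a j| / √t)`. -/
theorem result (k : ℕ) (τ : ℝ) (hτ : 0 < τ) (hτ1 : τ * θ₀ < 1) (ε : ℝ) (hε : 0 < ε) :
    ∃ N₀ : ℕ, ∀ N ≥ N₀, ∀ (x : ℤ) (a : Fin k → ℕ) (r : Fin k → ℤ),
      (∀ i, (a i : ℝ) ≤ (time τ N : ℝ) ^ (3 / 5 : ℝ) ∧ |(r i : ℝ)| ≤ Real.exp ((time τ N : ℝ) ^ (7 / 10 : ℝ))) →
      (∀ f, Test f → |mean x N (fun m => f (fun i => A (time τ N) (a i) (r i) m / √ (time τ N))
            (fun i j => T^[time τ N] (3 ^ a i * m + r i) = T^[time τ N] (3 ^ a j * m + r j))) -
          walks (fun z => f (fun i => z i / √ (time τ N)) (fun i j => z i = z j)) (time τ N) (fun i => a i)| ≤ ε) ∧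
      (Monotone a → ∀ y : Fin k → ℤ, Monotone y →
        walks (fun z => ind (∀ i, z i ≤ y i)) (time τ N) (fun i => a i) =
          Matrix.det (fun i j => bin (time τ N) (y j - a i) - if i < j then 1 else 0) ∧
        |mean x N (fun m => ind (∀ i, A (time τ N) (a i) (r i) m ≤ y i)) -
          Matrix.det (fun i j => bin (time τ N) (y j - a i) - if i < j then 1 else 0)| ≤ ε) ∧
      ∀ i j, |mean x N (fun m => ind (T^[time τ N] (3 ^ a i * m + r i) = T^[time τ N] (3 ^ a j * m + r j))) -
        (1 - 2 / √ Real.pi * ∫ u in (0 : ℝ)..(|(a i : ℝ) - a j| / √ (time τ N)), Real.exp (-u ^ 2))| ≤ ε := by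
  rw [th0_eq] at hτ1
  have h1τ : Pool.Agent.J4H39.th0 < 1 / τ := by rw [lt_div_iff₀ hτ]; linarith
  obtain ⟨t₁, ht₁⟩ := BL_int k h1τ hε
  obtain ⟨t₂, ht₂⟩ := det_int k h1τ hε
  obtain ⟨t₃, ht₃⟩ := pairs_int h1τ hε
  obtain ⟨z₀, hz₀⟩ : ∃ z₀ : ℕ, z₀ = 40 := ⟨_, rfl⟩
  have hlim := Pool.Agent.J4H39.tN_tendsto hτ
  obtain ⟨N₀, hN₀⟩ := eventually_atTop.1 ((hlim.eventually_ge_atTop (max (max t₁ t₂) (max t₃ (z₀ ^ 20)))).and (eventually_ge_atTop 1))
  refine ⟨N₀, fun N hN x a r har => ?_⟩
  obtain ⟨ht, hN1⟩ := hN₀ N hN
  have hNt := Pool.Agent.J4H39.pow_tN hτ hN1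
  have et : time τ N = Pool.Agent.J4H39.tN τ N := rfl
  rw [et] at har ⊢
  generalize Pool.Agent.J4H39.tN τ N = t at ht hNt har ⊢
  have h1 : t₁ ≤ t := (le_max_left _ _).trans ((le_max_left _ _).trans ht)
  have h2 : t₂ ≤ t := (le_max_right _ _).trans ((le_max_left _ _).trans ht)
  have h3 : t₃ ≤ t := (le_max_left _ _).trans ((le_max_right _ _).trans ht)
  have h4 : z₀ ^ 20 ≤ t := (le_max_right _ _).trans ((le_max_right _ _).trans ht)
  obtain ⟨z, hr1, hr2⟩ := Pool.Agent.J4H39.root20 t
  have hz : 40 ≤ z := by
    rw [← hz₀]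
    by_contra hcon
    have h7 : (z + 1) ^ 20 ≤ z₀ ^ 20 := Nat.pow_le_pow_left (by omega) 20
    exact absurd (hr2.trans_le h7) (not_lt.2 h4)
  clear h4 ht hz₀
  have hB : Bz z a r := by
    intro i
    obtain ⟨g1, g2⟩ := har i
    constructor
    · have a1 := Pool.Agent.J4H39.rpow_z (e := 12) hr2 hz (by norm_num)
      have a2 : (((12 : ℕ) : ℝ) / 20) = 3 / 5 := by norm_num
      rw [a2] at a1
      have a3 : (a i : ℝ) ≤ ((2 * z ^ 12 : ℕ) : ℝ) := by rw [Nat.cast_mul, Nat.cast_pow]; exact g1.trans a1
      exact Nat.cast_le.1 a3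
    · exact Pool.Agent.J4H39.exp_z hr2 hz g2
  refine ⟨?_, ?_, ?_⟩
  · intro f hf
    have key := ht₁ t h1 z hr1 hr2 (x + 1) N hNt a r hB f hf
    rw [walks_eq]
    apply mean_le hN1
    have e1 : ∀ m, f (fun i => (A t (a i) (r i) m : ℝ) / √ (t : ℝ))
        (fun i j => T^[t] (3 ^ a i * m + r i) = T^[t] (3 ^ a j * m + r j)) =
        f (fun i => (AA a r t m i : ℝ) / √ (t : ℝ)) (Eqp a r t m) := by
      intro m
      simp only [A_eq]
      rfl
    simp only [e1]
    exact key
  · intro ha y hy
    have hz' : Monotone (fun i => ((a i : ℕ) : ℤ)) := fun i j hij => by simp only; exact_mod_cast ha hij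
    have e1 := coal_eq y hy t (fun i => ((a i : ℕ) : ℤ)) hz'
    have e2 : walks (fun z => ind (∀ i, z i ≤ y i)) t (fun i => (a i : ℤ)) = cw (Pool.Agent.J4H26.KT.ind y) t (fun i => (a i : ℤ)) := by
      rw [walks_eq]; simp only [ind_eq]
    have e3 : Matrix.det (fun i j => bin t (y j - a i) - if i < j then (1 : ℝ) else 0) = cw (Pool.Agent.J4H26.KT.ind y) t (fun i => (a i : ℤ)) := by
      rw [← coal_cw, e1]
      unfold Phi Rw
      simp only [bin_eq]
    refine ⟨by rw [e2, e3], ?_⟩
    rw [e3]
    have key := ht₂ t h2 z hr1 hr2 (x + 1) N hNt a r hB ha y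
    apply mean_le hN1
    have e4 : ∀ m, ind (∀ i, A t (a i) (r i) m ≤ y i) = Pool.Agent.J4H26.KT.ind y (AA a r t m) := by
      intro m
      simp only [A_eq]
      exact ind_eq _ _
    simp only [e4]
    exact key
  · have half : ∀ i j : Fin k, a i ≤ a j →
        |mean x N (fun m => ind (T^[t] (3 ^ a i * m + r i) = T^[t] (3 ^ a j * m + r j))) -
        (1 - 2 / √ Real.pi * ∫ u in (0 : ℝ)..(|(a i : ℝ) - a j| / √ (t : ℝ)), Real.exp (-u ^ 2))| ≤ ε := by
      intro i j hij
      have key := ht₃ t h3 z hr1 hr2 (x + 1) N hNt (a i) (a j) (r i) (r j) hij (hB j).1 (hB i).2 (hB j).2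
      have e1 : |(a i : ℝ) - a j| = ((a j - a i : ℕ) : ℝ) := by
        rw [Nat.cast_sub hij, abs_sub_comm, abs_of_nonneg]
        have : (a i : ℝ) ≤ a j := by exact_mod_cast hij
        linarith
      rw [e1]
      exact mean_le hN1 key
    intro i j
    rcases le_total (a i) (a j) with hij | hij
    · exact half i j hij
    · have h5 := half j i hij
      rw [abs_sub_comm (a i : ℝ) (a j)]
      have e1 : (fun m => ind (T^[t] (3 ^ a i * m + r i) = T^[t] (3 ^ a j * m + r j))) =
          fun m => ind (T^[t] (3 ^ a j * m + r j) = T^[t] (3 ^ a i * m + r i)) := by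
        funext m
        congr 1
        exact propext eq_comm
      rw [e1]
      exact h5

end Pool.Agent.Results.MP_d02c56_nt.CoalescingForms
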