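import Pool.Agent.J4H26.VP.Fx

set_option autoImplicit false

/-!
# The asymptotic formula on the critical line from limits at distances `a / log T`

Let `k ≥ 1` be an integer.  The following are equivalent:

1. for every real `a` the moment at distance `a / log T` from the line, divided by `(log T)^{k²}`, has a (finite) limit;
2. this holds for infinitely many `a` in a bounded set (for example for infinitely many `a` in `(0, 1)`, that is,
   strictly to the right of the line);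
3. `M_k(T) = O((log T)^{k²})`, and for infinitely many `z` in a bounded subset of `ℂ` the rescaled correlation `K_k(z, T)`
   has a limit (for example for infinitely many purely imaginary `z = ih`, `0 < h < 1`: correlations on the line itself
   of `ζ(1/2 + i(t + h / log T))^k` and `ζ(1/2 + i(t - h / log T))^k`);
4. there is an entire function `F` such that `K_k(z, T) → F(z)` locally uniformly in `ℂ`, `F > 0` on the real axis,
   `|F(x + iy)| ≤ F(x)`, `log F` is convex on the real axis, `F(-z) = e^{2kz} F(z)`,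
   `F(x) = a_k (2x)^{-k²} + O(e^{-θx})` for `x ≥ 1` and every `θ < 1`, and `M_k(T) ∼ F(0) (log T)^{k²}` with `F(0) > 0`.
-/

open Filter Topology MeasureTheory

namespace Pool.Agent.Results.MP_112ba8_nt.LimitsNearTheLine

/-- The mean of `|ζ(1/2 + δ + it)|^{2k}` over `0 ≤ t ≤ T`; for `δ = 0` this is `M_k(T)`. -/
noncomputable def M (k : ℕ) (δ T : ℝ) : ℝ :=
  1 / T * ∫ t in (0:ℝ)..T, ‖riemannZeta (1 / 2 + δ + t * Complex.I)‖ ^ (2 * k)

/-- The rescaled correlation
`K_k(z, T) = (log T)^{-k²} (1/T) ∫_0^T ζ(1/2 + z/log T + it)^k ζ(1/2 + z/log T - it)^k dt`.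
For real `z` the integrand is `|ζ(1/2 + z/log T + it)|^{2k}`. -/
noncomputable def K (k : ℕ) (T : ℝ) (z : ℂ) : ℂ :=
  (1 / (T : ℂ) * ∫ t in (0:ℝ)..T, riemannZeta (1 / 2 + z / (Real.log T : ℂ) + t * Complex.I) ^ k *
    riemannZeta (1 / 2 + z / (Real.log T : ℂ) - t * Complex.I) ^ k) / (Real.log T : ℂ) ^ (k ^ 2)

/-- The arithmetic factor `a_k = ∏_p (1 - 1/p)^{k²} Σ_m C(m+k-1, m)² p^{-m}`. -/
noncomputable def a (k : ℕ) : ℝ :=
  ∏' p : Nat.Primes, ((1 - 1 / (p : ℝ)) ^ (k ^ 2) *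
    ∑' m : ℕ, ((m + k - 1).choose m : ℝ) ^ 2 * (1 / (p : ℝ)) ^ m)

open Pool.Agent.J4H26.EQ Pool.Agent.J4H26.VP Pool.Agent.H306R2 Pool.Agent.W184

lemma lc_nat (k : ℕ) (m : ℕ) (hk : 1 ≤ k) : lc (k : ℝ) m = ((m + k - 1).choose m : ℝ) := by
  have lcs : ∀ m : ℕ, lc (k : ℝ) (m + 1) = lc (k : ℝ) m * (((k : ℝ) + m) / ((m : ℝ) + 1)) := by
    intro m
    unfold lc
    rw [Finset.prod_range_succ]
  induction m with
  | zero => unfold lc; simp
  | succ m ih =>
    rw [lcs, ih]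
    have h1 : m + 1 + k - 1 = (m + k - 1) + 1 := by omega
    have h2 : ((m + k - 1) + 1) * (m + k - 1).choose m = ((m + k - 1) + 1).choose (m + 1) * (m + 1) :=
      Nat.add_one_mul_choose_eq (m + k - 1) m
    have h3 : (((m + k - 1 + 1 : ℕ)) : ℝ) = m + k := by
      rw [show m + k - 1 + 1 = m + k by omega]; push_cast; ring
    have h4 : ((m : ℝ) + k) * ((m + k - 1).choose m : ℝ) =
        (((m + k - 1) + 1).choose (m + 1) : ℝ) * ((m : ℝ) + 1) := by
      rw [← h3]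
      exact_mod_cast h2
    rw [h1]
    have h5 : (m : ℝ) + 1 ≠ 0 := by positivity
    rw [← mul_div_assoc, div_eq_iff h5]
    rw [← h4]
    ring

lemma a_eq (k : ℕ) (hk : 1 ≤ k) : a k = aF (k : ℝ) := by
  unfold aF a
  refine tprod_congr fun p => ?_
  congr 1
  · have h := Real.rpow_natCast (1 - 1 / (p : ℝ)) (k ^ 2)
    rw [Nat.cast_pow] at h
    exact h.symm
  · refine tsum_congr fun m => ?_
    rw [lc_nat k m hk]

lemma M_eq (k : ℕ) (δ T : ℝ) : M k δ T = MZ k δ T := by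
  unfold M MZ zn
  push_cast
  rfl

lemma K_eq (k : ℕ) : K k = ft k := by
  funext T z
  unfold K ft Jk
  push_cast
  rw [mul_comm (1 / (T : ℂ)), mul_one_div, div_div]

lemma ft_MZ {k : ℕ} {T : ℝ} (hT : 0 < T) (x : ℝ) :
    ft k T x = ((MZ k (x / Real.log T) T / Real.log T ^ (k ^ 2) : ℝ) : ℂ) := by
  rw [ft_real, Nk_MZ k _ hT]
  congr 1
  field_simp

theorem result (k : ℕ) (hk : 1 ≤ k) :
    List.TFAE [
      ∀ a : ℝ, ∃ c : ℝ, Tendsto (fun T => M k (a / Real.log T) T / Real.log T ^ (k ^ 2)) atTop (𝓝 c),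
      ∃ A : Set ℝ, A.Infinite ∧ Bornology.IsBounded A ∧
        ∀ a ∈ A, ∃ c : ℝ, Tendsto (fun T => M k (a / Real.log T) T / Real.log T ^ (k ^ 2)) atTop (𝓝 c),
      (∃ C : ℝ, ∀ᶠ T in atTop, M k 0 T ≤ C * Real.log T ^ (k ^ 2)) ∧
        ∃ A : Set ℂ, A.Infinite ∧ Bornology.IsBounded A ∧ ∀ z ∈ A, ∃ c : ℂ, Tendsto (fun T => K k T z) atTop (𝓝 c),
      ∃ F : ℂ → ℂ, Differentiable ℂ F ∧ TendstoLocallyUniformly (K k) F atTop ∧
        (∀ x : ℝ, (F x).im = 0 ∧ 0 < (F x).re) ∧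
        (∀ z : ℂ, ‖F z‖ ≤ (F z.re).re) ∧
        ConvexOn ℝ Set.univ (fun x : ℝ => Real.log (F x).re) ∧
        (∀ z : ℂ, F (-z) = Complex.exp (2 * k * z) * F z) ∧
        (∀ θ : ℝ, 0 < θ → θ < 1 → ∃ C : ℝ, ∀ x : ℝ, 1 ≤ x →
          |(F x).re - a k / (2 * x) ^ (k ^ 2)| ≤ C * Real.exp (-(θ * x))) ∧
        Tendsto (fun T => M k 0 T / Real.log T ^ (k ^ 2)) atTop (𝓝 (F 0).re)] := by
  simp only [M_eq, K_eq, a_eq k hk]
  have hbd : ∀ {x c : ℝ}, Tendsto (fun T => MZ k (x / Real.log T) T / Real.log T ^ (k ^ 2)) atTop (𝓝 c) →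
      ∃ K : ℝ, ∀ᶠ T in atTop, MZ k (x / Real.log T) T ≤ K * Real.log T ^ (k ^ 2) := by
    intro x c h
    refine ⟨c + 1, ?_⟩
    filter_upwards [h.eventually_lt_const (show c < c + 1 by linarith),
      Real.tendsto_log_atTop.eventually_gt_atTop 0] with T h1 h2
    rw [div_lt_iff₀ (by positivity)] at h1
    exact h1.le
  have hof : ∀ {x c : ℝ}, Tendsto (fun T => MZ k (x / Real.log T) T / Real.log T ^ (k ^ 2)) atTop (𝓝 c) →
      Tendsto (fun T => ft k T x) atTop (𝓝 (c : ℂ)) := by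
    intro x c h
    refine ((Complex.continuous_ofReal.tendsto c).comp h).congr' ?_
    filter_upwards [eventually_gt_atTop (0:ℝ)] with T hT
    simp only [Function.comp]
    rw [ft_MZ hT]
  tfae_have 1 → 2 := fun H => ⟨Set.Icc 0 1, Set.Icc_infinite one_pos, Metric.isBounded_Icc 0 1, fun x _ => H x⟩
  tfae_have 2 → 3 := by
    rintro ⟨A, hA, hb, hc⟩
    constructor
    · obtain ⟨x, hx, hx0⟩ : ∃ x ∈ A, x ≠ 0 := by
        by_contra hcon
        push Not at hcon
        exact hA ((Set.finite_singleton (0:ℝ)).subset fun x hx => hcon x hx)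
      obtain ⟨c, h⟩ := hc x hx
      exact up_of_ne hk hx0 (hbd h)
    · refine ⟨(fun x : ℝ => (x : ℂ)) '' A, hA.image Complex.ofReal_injective.injOn, ?_, ?_⟩
      · obtain ⟨r, hr⟩ := hb.subset_closedBall 0
        refine (Metric.isBounded_closedBall (x := (0:ℂ)) (r := r)).subset ?_
        rintro _ ⟨x, hx, rfl⟩
        have := hr hx
        rw [mem_closedBall_zero_iff] at this ⊢
        simpa using this
      · rintro _ ⟨x, hx, rfl⟩
        obtain ⟨c, h⟩ := hc x hx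
        exact ⟨c, hof h⟩
  tfae_have 3 → 4 := by
    rintro ⟨hup, A, hA, hb, hc⟩
    obtain ⟨F, hF, hl⟩ := lim hk hup hA hb hc
    refine ⟨F, hF, hl, fun x => ⟨im_zero hF.continuous hl x, F_pos hk hF hl x⟩, fun z => vert_le hF.continuous hl z,
      F_conv hk hF hl, fun z => F_fe hF hl z, fun θ h0 h1 => F_exp hk hF.continuous hl h0 h1, ?_⟩
    have h := re_lim hF.continuous hl 0
    rw [Complex.ofReal_zero] at h
    refine h.congr' ?_
    filter_upwards [eventually_gt_atTop (0:ℝ)] with T hT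
    rw [zero_div, Nk_MZ k 0 hT]
    field_simp
  tfae_have 4 → 1 := by
    rintro ⟨F, hF, hl, -⟩ x
    refine ⟨(F x).re, (re_lim hF.continuous hl x).congr' ?_⟩
    filter_upwards [eventually_gt_atTop (0:ℝ)] with T hT
    rw [Nk_MZ k _ hT]
    field_simp
  tfae_finish

end Pool.Agent.Results.MP_112ba8_nt.LimitsNearTheLine
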