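import Pool.Agent.J4H26.SZ.AllZ

set_option autoImplicit false

/-!
# The shifted moments of zeta of every order with shifts of the size of a power of the logarithm

If `U` is at least a suitable power of `log T` (and at most `T^(1/4)`), the integral of
`|ζ(1/2 + it)|² |ζ(1/2 + i(t + c_1))|² ⋯ |ζ(1/2 + i(t + c_n))|²` over `[0,T]` is asymptotic to its leading term for almost
all `c ∈ [0,U]^n`, after the points `t ∈ [0,T]` where the fourth moment of zeta over `[t, t+U]` is larger than `U` times a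
fixed power of `log T` have been removed; their measure is at most `T / (log T)^B`, and they do not depend on `c`. So the
full moment is at least `1 - ε` times the predicted leading term for almost all `c ∈ [0,U]^n`. No hypothesis is assumed
and `n` is arbitrary.

Much of the analysis is in the starting files (project PZ: `Pool.Agent.N879.PZ`), which stop short of the theorem: it
needs the comparison of the model with its leading term, proved in `Pool.Agent.J4H26.SZ.Led`.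
-/

namespace Pool.Agent.Results.MP_112ba8_nt.PowerOfLogShifts

open Complex Filter Topology MeasureTheory Set

noncomputable section

/-- `|ζ(1/2 + iu)|²` -/
def Z2 (u : ℝ) : ℝ := ‖riemannZeta (1 / 2 + I * u)‖ ^ 2

/-- The local density: `(1 - 1/p)^(n+1)` times the mean over `θ ∈ [0,1]` of
`|1 - e(θ) p^{-1/2}|^{-2} ∏_j |1 - e(θ) p^{-1/2-ic_j}|^{-2}`. -/
def dens {n : ℕ} (c : Fin n → ℝ) (p : ℕ) : ℝ :=
  (1 - 1 / (p : ℝ)) ^ (n + 1) * ∫ θ in (0:ℝ)..1,
    1 / (‖1 - cexp (2 * Real.pi * I * θ) * (p : ℂ) ^ (-(1 / 2) : ℂ)‖ ^ 2 *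
      ∏ j, ‖1 - cexp (2 * Real.pi * I * θ) * (p : ℂ) ^ (-(1 / 2 + I * c j))‖ ^ 2)

/-- `∏_j |f(1 + ic_j)|² ∏_{i<j} |f(1 + i(c_i - c_j))|²` -/
def pairs {n : ℕ} (f : ℂ → ℂ) (c : Fin n → ℝ) : ℝ :=
  (∏ j, ‖f (1 + I * c j)‖ ^ 2) * ∏ i, ∏ j ∈ Finset.Ioi i, ‖f (1 + I * (c i - c j))‖ ^ 2

/-- The constant of the leading term for `|ζ(1/2 + it)|² ∏_j |ζ(1/2 + i(t + c_j))|²`: the product of the values
`|ζ(1 + ic_j)|²`, `|ζ(1 + i(c_i - c_j))|²` and of an absolutely convergent Euler product. -/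
def lead {n : ℕ} (c : Fin n → ℝ) : ℝ :=
  pairs riemannZeta c * ∏' p : Nat.Primes, dens c p * pairs (fun s => 1 - (p : ℂ) ^ (-s)) c

/-- The points `t ∈ [0,T]` where the fourth moment of zeta over `[t, t+U]` is larger than `U V`. -/
def bad (T U V : ℝ) : Set ℝ := {t | t ∈ Icc 0 T ∧ U * V < ∫ u in t..(t + U), Z2 u ^ 2}

lemma lead_eq {n : ℕ} (c : Fin n → ℝ) : lead c = Pool.Agent.N879.PZ.zp1 c * Pool.Agent.N879.PZ.AA1 c := rfl

lemma Z2_cont : Continuous Z2 := by
  unfold Z2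
  refine Continuous.pow (Continuous.norm ?_) 2
  refine continuous_iff_continuousAt.2 fun u => ?_
  have h1 : (1 / 2 + I * (u : ℂ)) ≠ 1 := by
    intro h
    have := congrArg Complex.re h
    norm_num at this
  have h2 : ContinuousAt riemannZeta (1 / 2 + I * (u : ℂ)) := (differentiableAt_riemannZeta h1).continuousAt
  have h3 : Continuous fun u : ℝ => (1 / 2 + I * (u : ℂ)) := by fun_prop
  exact ContinuousAt.comp (f := fun u : ℝ => (1 / 2 + I * (u : ℂ))) h2 h3.continuousAt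

lemma Z2_nonneg (u : ℝ) : 0 ≤ Z2 u := by unfold Z2; positivity

lemma lead_nonneg {n : ℕ} (c : Fin n → ℝ) : 0 ≤ lead c := by
  obtain ⟨C, hC, h⟩ := Pool.Agent.J4H26.SZ.z_AA1 n
  obtain ⟨-, h2, h3, -⟩ := h c
  have h4 : 0 ≤ Pool.Agent.N879.PZ.AA1 c := by
    by_contra hneg
    rw [not_le] at hneg
    set A := Pool.Agent.N879.PZ.AA1 c
    have hy : 1 ≤ max 1 (2 * C / (-A)) := le_max_left _ _
    have h5 := h2 _ hy
    have h6 := (h3 _ hy).1
    have h7 : C / max 1 (2 * C / (-A)) ≤ (-A) / 2 := by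
      rw [div_le_iff₀ (by positivity)]
      have : 2 * C / (-A) ≤ max 1 (2 * C / (-A)) := le_max_right _ _
      rw [div_le_iff₀ (by linarith)] at this
      linarith
    have h8 := (abs_le.1 h5).2
    linarith
  rw [lead_eq]
  refine mul_nonneg ?_ h4
  unfold Pool.Agent.N879.PZ.zp1
  positivity

/-- **Shifted moments of every order, for almost all shifts of the size of a power of the logarithm.** Let `n` be a
natural number. For every `B` there are `C₀, B₀` such that for every `ε > 0`, all `T ≥ T₀(ε)` and all `U` with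
`(log T)^C₀ ≤ U ≤ T^(1/4)`: the set `bad(T, U, (log T)^B₀)` has measure at most `T / (log T)^B`, and for all `c ∈ [0,U]^n`
outside a set of measure at most `ε U^n` the integral of `|ζ(1/2+it)|² ∏_j |ζ(1/2+i(t+c_j))|²` over the other
`t ∈ [0,T]` is between `1 - ε` and `1 + ε` times `lead(c) T (log T)^(n+1)`. In particular the integral over the whole of
`[0,T]` is at least `(1 - ε) lead(c) T (log T)^(n+1)` for these `c`. The Euler product in `lead` converges absolutely,
uniformly in `c`. -/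
theorem result (n : ℕ) :
    (∀ B : ℕ, ∃ C₀ B₀ : ℕ, ∀ ε : ℝ, 0 < ε → ∃ T₀ : ℝ, ∀ T : ℝ, T₀ ≤ T → ∀ U : ℝ,
      Real.log T ^ C₀ ≤ U → U ≤ T ^ (1 / 4 : ℝ) →
      MeasurableSet (bad T U (Real.log T ^ B₀)) ∧
      volume (bad T U (Real.log T ^ B₀)) ≤ ENNReal.ofReal (T / Real.log T ^ B) ∧
      volume {c : Fin n → ℝ | (∀ j, 0 ≤ c j ∧ c j ≤ U) ∧
        ¬ |(∫ t in Icc 0 T \ bad T U (Real.log T ^ B₀), Z2 t * ∏ j, Z2 (t + c j)) /
          (lead c * (T * Real.log T ^ (n + 1))) - 1| ≤ ε} ≤ ENNReal.ofReal (ε * U ^ n) ∧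
      volume {c : Fin n → ℝ | (∀ j, 0 ≤ c j ∧ c j ≤ U) ∧
        (∫ t in (0 : ℝ)..T, Z2 t * ∏ j, Z2 (t + c j)) < (1 - ε) * (lead c * (T * Real.log T ^ (n + 1)))} ≤
          ENNReal.ofReal (ε * U ^ n)) ∧
    (∃ K : ℝ, ∀ c : Fin n → ℝ, ∀ p : ℕ, p.Prime →
      |dens c p * pairs (fun s => 1 - (p : ℂ) ^ (-s)) c - 1| ≤ K / (p : ℝ) ^ 2) := by
  refine ⟨?_, ?_⟩
  · intro B
    obtain ⟨C₀, B₀, h⟩ := Pool.Agent.J4H26.SZ.z_MAIN2 n B
    refine ⟨C₀, B₀, fun ε hε => ?_⟩
    obtain ⟨T₀, h⟩ := eventually_atTop.1 (h ε hε)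
    refine ⟨max T₀ 1, fun T hT U h1 h2 => ?_⟩
    obtain ⟨q1, q2⟩ := h T ((le_max_left _ _).trans hT) U h1 h2
    set V := Real.log T ^ B₀ with hV
    have e1 : bad T U V = Icc 0 T \ Pool.Agent.N879.PZ.Gs U V := by
      ext t
      unfold bad Pool.Agent.N879.PZ.Gs
      simp only [Set.mem_ofPred_eq, Set.mem_sdiff, not_le]
      rfl
    have e2 : Icc 0 T \ bad T U V = Pool.Agent.N879.PZ.Gs U V ∩ Icc 0 T := by
      rw [e1, sdiff_sdiff_right_self]
      exact inter_comm _ _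
    have q3 : volume {c : Fin n → ℝ | (∀ j, 0 ≤ c j ∧ c j ≤ U) ∧
        ¬ |(∫ t in Icc 0 T \ bad T U V, Z2 t * ∏ j, Z2 (t + c j)) /
          (lead c * (T * Real.log T ^ (n + 1))) - 1| ≤ ε} ≤ ENNReal.ofReal (ε * U ^ n) := by
      refine le_trans (le_of_eq ?_) q2
      congr 1
      ext c
      simp only [Set.mem_ofPred_eq, e2, lead_eq]
      rfl
    refine ⟨?_, ?_, q3, ?_⟩
    · rw [e1]
      exact measurableSet_Icc.diff (Pool.Agent.N879.PZ.Gs_meas U V)
    · rw [e1]
      exact q1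
    · refine (measure_mono ?_).trans q3
      rintro c ⟨hc, hlt⟩
      refine ⟨hc, fun hle => absurd hlt (not_lt.2 ?_)⟩
      have hT1 : 1 ≤ T := (le_max_right _ _).trans hT
      have hcont : Continuous fun t : ℝ => Z2 t * ∏ j, Z2 (t + c j) :=
        Z2_cont.mul (continuous_finsetProd _ fun j _ => Z2_cont.comp (by fun_prop))
      have hnn : ∀ t : ℝ, 0 ≤ Z2 t * ∏ j, Z2 (t + c j) := fun t =>
        mul_nonneg (Z2_nonneg t) (Finset.prod_nonneg fun j _ => Z2_nonneg _)
      have hmono : (∫ t in Icc 0 T \ bad T U V, Z2 t * ∏ j, Z2 (t + c j)) ≤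
          ∫ t in (0 : ℝ)..T, Z2 t * ∏ j, Z2 (t + c j) := by
        rw [intervalIntegral.integral_of_le (by linarith), ← integral_Icc_eq_integral_Ioc]
        refine setIntegral_mono_set (hcont.continuousOn.integrableOn_compact isCompact_Icc)
          (Eventually.of_forall hnn) (Eventually.of_forall fun t ht => ht.1)
      refine le_trans ?_ hmono
      have hL : 0 ≤ lead c * (T * Real.log T ^ (n + 1)) :=
        mul_nonneg (lead_nonneg c) (mul_nonneg (by linarith) (pow_nonneg (Real.log_nonneg hT1) _))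
      rcases hL.eq_or_lt with h0 | h0
      · rw [← h0, mul_zero]
        exact integral_nonneg hnn
      · have := (abs_le.1 hle).1
        have h9 : 1 - ε ≤ (∫ t in Icc 0 T \ bad T U V, Z2 t * ∏ j, Z2 (t + c j)) /
          (lead c * (T * Real.log T ^ (n + 1))) := by linarith
        rwa [le_div_iff₀ h0] at h9
  · obtain ⟨C1, -, h1⟩ := Pool.Agent.J4H26.SZ.z_AA1 n
    exact ⟨C1, fun c p hp => ((h1 c).1 p hp).2⟩

end

end Pool.Agent.Results.MP_112ba8_nt.PowerOfLogShifts
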