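import Mathlib
import Pool.Agent.R630.WD.Basic
import Pool.Agent.J4H26.CC.S2

/-!
# The exact speed of coalescence under the entire `3x+1` function, and the Rayleigh law before coalescence

Let `f₀` be the entire interpolation of the `3x+1` map of Letherman, Schleicher and Wood.  Two integers whose orbits under
`f₀` meet lie in Fatou components of the same kind (both wandering, or both in the basin of the same cycle), so the
question whether wandering domains contain integers depends only on classes of integers with coalescing orbits.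

We fix two linear forms `3 ^ a m + r` and `3 ^ b m + s` with `(a, r) ≠ (b, s)`; for `a = b = 0`, `r = 0`, `s = 1` they are
`m` and `m + 1`.  On a residue class of `m` modulo `2 ^ t`, the functions `f₀^t (3 ^ a m + r)` and `f₀^t (3 ^ b m + s)` of
`m` are linear, and the quotient of their slopes is `3 ^ D` with `D = D a b r s t m` (`b` plus the number of odd integers
among the first `t` points of the orbit of `3 ^ b m + s`, minus the corresponding number for `3 ^ a m + r`).

We prove the exact asymptotic formula: the proportion of `m` in an interval for which the two orbits have not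
coalesced at time `t` and `|D| ≥ λ √t` is `(2/√π) G e ^ (-λ²) (1 + o(1)) / √t`, with a constant `G ≥ 1` which is the
limit of the (increasing) mean values of `|D|`; so the orbits coalesce with probability `1 - (2/√π + o(1)) G / √t`, and
conditionally on not having coalesced, `|D| / √t` has the Rayleigh distribution in the limit.  In particular the
proportion of the `m` for which exactly one of the two integers lies in a wandering domain (or in a given basin) is at
most `((2/√π) G + o(1)) / √(log₂ N)`.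

The chain of pairs and the error function law for it are due to the files `J4H39` (helper39), the potentials used for the
a priori bounds to `H499R2/CO`.
-/

set_option autoImplicit false

open Filter Topology Set

namespace Pool.Agent.Results.MP_071ec9_an.RayleighLaw

open Pool.Agent.H384R2.Fatou

/-- The entire function of Letherman, Schleicher and Wood; `f₀ n = T n` for every integer `n`, where
`T` is the `3x+1` function. -/
noncomputable def f₀ (z : ℂ) : ℂ :=
  z / 2 + (z + 1 / 2) * ((1 - Complex.cos (Real.pi * z)) / 2) +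
    1 / Real.pi * (1 / 2 - Complex.cos (Real.pi * z)) * Complex.sin (Real.pi * z)

/-- The integers whose Fatou component is a wandering domain of `f₀`. -/
def WanderingIntegers : Set ℤ := {n | IsWanderingDomain f₀ (FatouComponent f₀ n)}

/-- The integers `n` in the Fatou set whose component is not a wandering domain and is attracted to
the cycle of the integer `c`, of period (dividing) `p`: all points `z` of the component satisfy
`f₀^(k+pm)(z) → c` as `m → ∞`, for some `k`. -/
def BasinIntegers (c : ℤ) (p : ℕ) : Set ℤ :=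
  {n | (n : ℂ) ∈ FatouSet f₀ ∧ ¬ IsWanderingDomain f₀ (FatouComponent f₀ n) ∧
    ∃ k : ℕ, ∀ z ∈ FatouComponent f₀ n,
      Tendsto (fun m : ℕ => f₀^[k + p * m] z) atTop (𝓝 (c : ℂ))}

/-- `R` is the set of the integers in wandering domains, or the set of the integers attracted to the cycle of some
integer. -/
def Kind (R : Set ℤ) : Prop :=
  R = WanderingIntegers ∨ ∃ (c : ℤ) (p : ℕ), 0 < p ∧ f₀^[p] (c : ℂ) = c ∧ R = BasinIntegers c p

/-- The number of odd integers among `n, f₀(n), …, f₀^(t-1)(n)` (counted with multiplicity). -/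
noncomputable def odds (t : ℕ) (n : ℤ) : ℕ := {j : ℕ | j < t ∧ ∃ k : ℤ, f₀^[j] (n : ℂ) = ((2 * k + 1 : ℤ) : ℂ)}.ncard

/-- The difference `(b + odds t (3 ^ b m + s)) - (a + odds t (3 ^ a m + r))`; `3 ^ D` is the quotient of the
slopes of `m ↦ f₀^t (3 ^ b m + s)` and `m ↦ f₀^t (3 ^ a m + r)` on the residue class of `m` modulo `2 ^ t`. -/
noncomputable def D (a b : ℕ) (r s : ℤ) (t : ℕ) (m : ℤ) : ℤ :=
  ((b : ℤ) + odds t (3 ^ b * m + s)) - (a + odds t (3 ^ a * m + r))

/-- The mean value of `|D a b r s j m|` over `m = 0, …, 2 ^ j - 1`. -/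
noncomputable def mean (a b : ℕ) (r s : ℤ) (j : ℕ) : ℝ :=
  (∑ m ∈ Finset.range (2 ^ j), |(D a b r s j (m : ℤ) : ℝ)|) / 2 ^ j

/-- Proportion of the integers `m`, `x ≤ m < x + N`, for which `f₀^t` maps `3 ^ a m + r` and `3 ^ b m + s` to different
integers and `|D a b r s t m| ≥ lam √t`. -/
noncomputable def apart (a b : ℕ) (r s : ℤ) (lam : ℝ) (t : ℕ) (x : ℤ) (N : ℕ) : ℝ :=
  ({m : ℤ | x ≤ m ∧ m < x + N ∧ f₀^[t] ((3 ^ a * m + r : ℤ) : ℂ) ≠ f₀^[t] ((3 ^ b * m + s : ℤ) : ℂ) ∧
    lam * √ (t : ℝ) ≤ |(D a b r s t m : ℝ)|}.ncard : ℝ) / N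

/-- Proportion of the integers `m`, `x ≤ m < x + N`, for which `R` contains exactly one of `3 ^ a m + r`,
`3 ^ b m + s`. -/
noncomputable def differ (R : Set ℤ) (a b : ℕ) (r s : ℤ) (x : ℤ) (N : ℕ) : ℝ :=
  ({m : ℤ | x ≤ m ∧ m < x + N ∧ ¬ (3 ^ a * m + r ∈ R ↔ 3 ^ b * m + s ∈ R)}.ncard : ℝ) / N

theorem iter_f (n : ℤ) (t : ℕ) : f₀^[t] (n : ℂ) = ((Pool.Agent.J4H39.T^[t] n : ℤ) : ℂ) :=
  Pool.Agent.H723R2.LSW.f₀_iter n t

theorem odds_eq (t : ℕ) (n : ℤ) : odds t n = Pool.Agent.J4H39.od t n := by
  have key : ∀ j : ℕ, (∃ k : ℤ, f₀^[j] (n : ℂ) = ((2 * k + 1 : ℤ) : ℂ)) ↔ Pool.Agent.J4H39.T^[j] n % 2 = 1 := by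
    intro j
    rw [iter_f]
    simp only [Int.cast_inj]
    constructor
    · rintro ⟨k, hk⟩; omega
    · intro h; exact ⟨Pool.Agent.J4H39.T^[j] n / 2, by omega⟩
  unfold odds
  simp only [key]
  induction t with
  | zero => simp [Pool.Agent.J4H39.od]
  | succ t ih =>
    rw [Pool.Agent.J4H39.od_succ, ← ih]
    have hfin : {j : ℕ | j < t ∧ Pool.Agent.J4H39.T^[j] n % 2 = 1}.Finite :=
      (Set.finite_Iio t).subset fun j hj => hj.1
    rcases Pool.Agent.J4H39.pr_cases t n with ⟨h1, h2⟩ | ⟨h1, h2⟩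
    · rw [h1, add_zero]
      congr 1
      ext j
      simp only [mem_ofPred_eq]
      constructor
      · rintro ⟨h3, h4⟩
        refine ⟨?_, h4⟩
        rcases Nat.lt_succ_iff_lt_or_eq.1 h3 with h5 | h5
        · exact h5
        · subst h5; omega
      · rintro ⟨h3, h4⟩; exact ⟨by omega, h4⟩
    · rw [h1]
      have e : {j : ℕ | j < t + 1 ∧ Pool.Agent.J4H39.T^[j] n % 2 = 1} =
          insert t {j : ℕ | j < t ∧ Pool.Agent.J4H39.T^[j] n % 2 = 1} := by
        ext j
        simp only [mem_ofPred_eq, mem_insert_iff]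
        constructor
        · rintro ⟨h3, h4⟩
          rcases Nat.lt_succ_iff_lt_or_eq.1 h3 with h5 | h5
          · right; exact ⟨h5, h4⟩
          · left; exact h5
        · rintro (rfl | ⟨h3, h4⟩)
          · exact ⟨by omega, h2⟩
          · exact ⟨by omega, h4⟩
      rw [e, Set.ncard_insert_of_notMem (by simp) hfin]

theorem D_eq (a b : ℕ) (r s : ℤ) (t : ℕ) (m : ℤ) : D a b r s t m = Pool.Agent.J4H26.CC.dd a b r s t m := by
  unfold D Pool.Agent.J4H26.CC.dd
  rw [odds_eq, odds_eq]

theorem mean_eq (a b : ℕ) (r s : ℤ) : mean a b r s = Pool.Agent.J4H26.CC.mean a b r s := by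
  funext j
  unfold mean Pool.Agent.J4H26.CC.mean
  simp only [D_eq]

theorem apart_eq (a b : ℕ) (r s : ℤ) (lam : ℝ) (t : ℕ) (x : ℤ) (N : ℕ) :
    apart a b r s lam t x N = Pool.Agent.J4H26.CC.prop a b r s lam t x N := by
  unfold apart Pool.Agent.J4H26.CC.prop
  simp only [D_eq, iter_f, ne_eq, Int.cast_inj]

theorem differ_le {R : Set ℤ} (hR : Kind R) (a b : ℕ) (r s : ℤ) (x : ℤ) (N : ℕ) :
    differ R a b r s x N ≤ Pool.Agent.J4H26.CC.never a b r s x N := by
  unfold differ Pool.Agent.J4H26.CC.never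
  apply div_le_div_of_nonneg_right _ (Nat.cast_nonneg N)
  apply Nat.cast_le.2
  apply Set.ncard_le_ncard
  · rintro m ⟨h1, h2, h3⟩
    refine ⟨h1, h2, fun t h4 => h3 ?_⟩
    have hm : Pool.Agent.H723R2.LSW.Mer (3 ^ a * m + r) (3 ^ b * m + s) := ⟨t, t, h4⟩
    rcases hR with rfl | ⟨c, p, hp, hc, rfl⟩
    · exact Pool.Agent.R630.WD.wn_mer hm
    · exact Pool.Agent.R630.WD.bn_mer hp hc hm
  · apply (Set.finite_Ico x (x + N)).subset
    rintro m ⟨h1, h2, -⟩
    exact ⟨h1, h2⟩

/-- **The exact speed of coalescence.**  For any linear forms `3 ^ a m + r` and `3 ^ b m + s` there is a constant `G`,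
the limit of the increasing sequence of the mean values of `|D a b r s j ·|`, which is `0` if the forms are equal and
otherwise at least `1` (and at least `|a - b|`), such that:

* the proportion of the `m` in an interval of `N` integers, in any position, for which `f₀^t` maps the two forms to
  different integers and `|D| ≥ lam √t`, multiplied by `√t`, tends to `(2/√π) G exp (-lam²)` as `t → ∞` and
  `N / 2 ^ t → ∞`, for every `lam ≥ 0`;
* if `R` is the set of the integers in wandering domains, or in the basin of a given integer cycle, the proportion of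
  the `m` in any interval of `N` integers for which `R` contains exactly one of the forms is at most
  `((2/√π) G + o(1)) / √(log₂ N)`. -/
theorem result (a b : ℕ) (r s : ℤ) : ∃ G : ℝ,
    |(a : ℝ) - b| ≤ G ∧ (G = 0 ↔ a = b ∧ r = s) ∧ (G ≠ 0 → 1 ≤ G) ∧
    Monotone (mean a b r s) ∧ Tendsto (mean a b r s) atTop (𝓝 G) ∧
    (∀ lam : ℝ, 0 ≤ lam → ∀ ε : ℝ, 0 < ε → ∃ K : ℕ, ∀ t N : ℕ, K ≤ t → K * 2 ^ t ≤ N → ∀ x : ℤ,
      |√ (t : ℝ) * apart a b r s lam t x N - 2 / √ Real.pi * G * Real.exp (-lam ^ 2)| ≤ ε) ∧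
    ∀ ε : ℝ, 0 < ε → ∃ N₀ : ℕ, 2 ≤ N₀ ∧ ∀ N : ℕ, N₀ ≤ N → ∀ (x : ℤ) (R : Set ℤ), Kind R →
      √ (Real.log N / Real.log 2) * differ R a b r s x N ≤ 2 / √ Real.pi * G + ε := by
  obtain ⟨g, h1, h2, h3, h4, h5, h6⟩ := Pool.Agent.J4H26.CC.full a b r s
  refine ⟨g, h1, h2, h3, ?_, ?_, ?_, ?_⟩
  · rw [mean_eq]; exact monotone_nat_of_le_succ h4
  · rw [mean_eq]; exact h5
  · intro lam hlam ε hε
    obtain ⟨K, hK⟩ := h6 lam hlam ε hε
    refine ⟨K, fun t N ht hN x => ?_⟩
    rw [apart_eq]
    exact hK t N ht hN x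
  · intro ε hε
    have hg : 0 ≤ g := (abs_nonneg _).trans h1
    obtain ⟨N₀, h7, h8⟩ := Pool.Agent.J4H26.CC.never_bound hg h6 hε
    refine ⟨N₀, h7, fun N hN x R hR => ?_⟩
    refine le_trans ?_ (h8 N hN x)
    exact mul_le_mul_of_nonneg_left (differ_le hR a b r s x N) (Real.sqrt_nonneg _)

end Pool.Agent.Results.MP_071ec9_an.RayleighLaw
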